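import Mathlib
import Pool.Graph.R_seed8.R1.Mag

/-!
# Finite graphs of minimum degree `d` and small magneto-spectral height

The graph `gr b R` has the vertices of the rooted `b`-ary tree of depth `R` and `b + 2` further
vertices, which form a clique and are joined to the root and to the leaves of the tree. Its minimum
degree is at least `b + 1` and its magneto-spectral height is at most
`(R (√b - 1)² + 2 (b + 2)) / (R + 1)`.
-/

set_option autoImplicit false

open Finset

namespace Pool.Agent.KS6_9.MG.Tree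

open Pool.Agent.R1.Mag

/-- the vertices of the rooted `b`-ary tree of depth `R` -/
abbrev T (b R : ℕ) : Type := {l : List (Fin b) // l.length ≤ R}

instance (b R : ℕ) : Finite (T b R) := (List.finite_length_le (Fin b) R).to_subtype

noncomputable instance (b R : ℕ) : Fintype (T b R) := Fintype.ofFinite _

/-- the level -/
def lev {b R : ℕ} (t : T b R) : ℕ := t.1.length

/-- the parent -/
def par {b R : ℕ} (t : T b R) : T b R := ⟨t.1.tail, by
  have := t.2
  rw [List.length_tail]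
  omega⟩

lemma lev_par {b R : ℕ} (t : T b R) (h : 0 < lev t) : lev (par t) + 1 = lev t := by
  unfold lev par at *
  simp only [List.length_tail]
  omega

lemma lev_le {b R : ℕ} (t : T b R) : lev t ≤ R := t.2

lemma card_lev (b R k : ℕ) (hk : k ≤ R) : #{t : T b R | lev t = k} = b ^ k := by
  have e : {t : T b R // lev t = k} ≃ List.Vector (Fin b) k :=
    { toFun := fun t => ⟨t.1.1, t.2⟩
      invFun := fun v => ⟨⟨v.1, by rw [v.2]; exact hk⟩, v.2⟩
      left_inv := fun t => rfl
      right_inv := fun v => rfl }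
  rw [← Fintype.card_subtype, Fintype.card_congr e, card_vector, Fintype.card_fin]

/-- a sum of a function of the level over the tree -/
lemma sum_lev (b R : ℕ) (F : ℕ → ℝ) :
    ∑ t : T b R, F (lev t) = ∑ k ∈ range (R + 1), (b : ℝ) ^ k * F k := by
  rw [← Finset.sum_fiberwise_of_maps_to (s := (univ : Finset (T b R))) (t := range (R + 1))
    (g := lev) (fun t _ => mem_range.2 (Nat.lt_succ_of_le (lev_le t)))]
  refine Finset.sum_congr rfl fun k hk => ?_
  rw [Finset.sum_congr rfl (g := fun _ => F k)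
    (fun t ht => by rw [(Finset.mem_filter.1 ht).2]), Finset.sum_const,
    card_lev b R k (Nat.lt_succ_iff.1 (mem_range.1 hk)), nsmul_eq_mul]
  push_cast
  ring

/-- the oriented edges -/
def rel (b R : ℕ) : T b R ⊕ Fin (b + 2) → T b R ⊕ Fin (b + 2) → Prop
  | .inl t, .inl s => 0 < lev t ∧ s = par t
  | .inl t, .inr _ => lev t = 0 ∨ lev t = R
  | .inr _, .inl _ => False
  | .inr i, .inr j => i < j

/-- the graph -/
def gr (b R : ℕ) : SimpleGraph (T b R ⊕ Fin (b + 2)) where
  Adj x y := rel b R x y ∨ rel b R y x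
  symm := ⟨fun _ _ h => h.symm⟩
  loopless := by
    constructor
    rintro (t | i) h
    · have h1 : 0 < lev t ∧ t = par t := by
        rcases h with h | h <;> exact h
      have h2 := lev_par t h1.1
      rw [← h1.2] at h2
      omega
    · have h1 : i < i := by
        rcases h with h | h <;> exact h
      exact lt_irrefl _ h1

open Classical in
/-- the minimum degree is at least `b + 1` -/
lemma deg (b R : ℕ) (v : T b R ⊕ Fin (b + 2)) : b + 1 ≤ (gr b R).degree v := by
  rw [← SimpleGraph.card_neighborSet_eq_degree]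
  rcases v with t | i
  · by_cases h : lev t = 0 ∨ lev t = R
    · have hi : Function.Injective
          (fun i : Fin (b + 2) => (⟨.inr i, Or.inl h⟩ : (gr b R).neighborSet (.inl t))) := by
        intro i j hij
        exact Sum.inr_injective (Subtype.ext_iff.1 hij)
      refine le_trans ?_ (Fintype.card_le_of_injective _ hi)
      rw [Fintype.card_fin]
      omega
    · push Not at h
      have hR : lev t < R := lt_of_le_of_ne (lev_le t) h.2
      have hi : Function.Injective
          (fun o : Option (Fin b) => (match o with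
            | none => ⟨.inl (par t), Or.inl ⟨Nat.pos_of_ne_zero h.1, rfl⟩⟩
            | some i => ⟨.inl ⟨i :: t.1, hR⟩, Or.inr ⟨Nat.succ_pos _, rfl⟩⟩ :
              (gr b R).neighborSet (.inl t))) := by
        rintro (_ | i) (_ | j) hij
        · rfl
        · exfalso
          have h1 := Subtype.ext_iff.1 (Sum.inl_injective (Subtype.ext_iff.1 hij))
          have h2 := congrArg List.length h1
          simp only [par, List.length_tail, List.length_cons] at h2
          omega
        · exfalso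
          have h1 := Subtype.ext_iff.1 (Sum.inl_injective (Subtype.ext_iff.1 hij))
          have h2 := congrArg List.length h1
          simp only [par, List.length_tail, List.length_cons] at h2
          omega
        · have h1 := Subtype.ext_iff.1 (Sum.inl_injective (Subtype.ext_iff.1 hij))
          exact congrArg some (List.cons.inj h1).1
      refine le_trans ?_ (Fintype.card_le_of_injective _ hi)
      rw [Fintype.card_option, Fintype.card_fin]
  · have hi : Function.Injective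
        (fun j : {j : Fin (b + 2) // j ≠ i} =>
          (⟨.inr j.1, (lt_or_gt_of_ne j.2).elim Or.inr Or.inl⟩ :
            (gr b R).neighborSet (.inr i))) := by
      intro j k hjk
      exact Subtype.ext (Sum.inr_injective (Subtype.ext_iff.1 hjk))
    refine le_trans ?_ (Fintype.card_le_of_injective _ hi)
    rw [Fintype.card_subtype_compl, Fintype.card_fin, Fintype.card_subtype_eq]
    omega

/-- the gauge along the paths from the root -/
noncomputable def gau {b R : ℕ} (σ : T b R ⊕ Fin (b + 2) → T b R ⊕ Fin (b + 2) → ℂ) :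
    List (Fin b) → ℂ
  | [] => 1
  | i :: l => (if h : (i :: l).length ≤ R then σ (.inl ⟨i :: l, h⟩) (.inl (par ⟨i :: l, h⟩))
      else 1) * gau σ l

lemma gau_norm {b R : ℕ} (σ : T b R ⊕ Fin (b + 2) → T b R ⊕ Fin (b + 2) → ℂ)
    (hσ : IsPotential (gr b R) σ) (l : List (Fin b)) : ‖gau σ l‖ = 1 := by
  induction l with
  | nil => simp [gau]
  | cons i l ih =>
    rw [gau, norm_mul, ih, mul_one]
    split_ifs with h
    · have ha : (gr b R).Adj (.inl ⟨i :: l, h⟩) (.inl (par ⟨i :: l, h⟩)) :=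
        Or.inl ⟨Nat.succ_pos _, rfl⟩
      exact (hσ _ _ ha).1
    · simp

lemma gau_par {b R : ℕ} (σ : T b R ⊕ Fin (b + 2) → T b R ⊕ Fin (b + 2) → ℂ) (t : T b R)
    (ht : 0 < lev t) : gau σ t.1 = σ (.inl t) (.inl (par t)) * gau σ (par t).1 := by
  obtain ⟨l, hl⟩ := t
  cases l with
  | nil => exact absurd ht (lt_irrefl 0)
  | cons i l =>
    rw [gau, dif_pos hl]
    rfl

/-- the test function -/
noncomputable def tst {b R : ℕ} (σ : T b R ⊕ Fin (b + 2) → T b R ⊕ Fin (b + 2) → ℂ) :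
    T b R ⊕ Fin (b + 2) → ℂ
  | .inl t => gau σ t.1 * (((√(b : ℝ)) ^ lev t)⁻¹ : ℝ)
  | .inr _ => 0

lemma sq_inv (b k : ℕ) : (((√(b : ℝ)) ^ k)⁻¹) ^ 2 = ((b : ℝ) ^ k)⁻¹ := by
  rw [inv_pow, ← pow_mul, mul_comm, pow_mul, Real.sq_sqrt (Nat.cast_nonneg b)]

lemma tst_sq {b R : ℕ} (σ : T b R ⊕ Fin (b + 2) → T b R ⊕ Fin (b + 2) → ℂ)
    (hσ : IsPotential (gr b R) σ) (t : T b R) :
    ‖tst σ (.inl t)‖ ^ 2 = ((b : ℝ) ^ lev t)⁻¹ := by
  rw [tst, norm_mul, gau_norm σ hσ, one_mul, Complex.norm_real, Real.norm_eq_abs, sq_abs, sq_inv]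

lemma sum_sq {b R : ℕ} (hb : 0 < b)
    (σ : T b R ⊕ Fin (b + 2) → T b R ⊕ Fin (b + 2) → ℂ)
    (hσ : IsPotential (gr b R) σ) : ∑ x, ‖tst σ x‖ ^ 2 = R + 1 := by
  rw [Fintype.sum_sum_type, Finset.sum_congr rfl (fun t _ => tst_sq σ hσ t),
    sum_lev b R (fun k => ((b : ℝ) ^ k)⁻¹)]
  have h1 : ∀ k ∈ range (R + 1), (b : ℝ) ^ k * ((b : ℝ) ^ k)⁻¹ = 1 := fun k _ =>
    mul_inv_cancel₀ (pow_ne_zero _ (Nat.cast_ne_zero.2 hb.ne'))
  rw [Finset.sum_congr rfl h1]
  simp [tst]

/-- the energy of a tree edge -/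
lemma edge {b R : ℕ} (hb : 0 < b) (σ : T b R ⊕ Fin (b + 2) → T b R ⊕ Fin (b + 2) → ℂ)
    (hσ : IsPotential (gr b R) σ) (t : T b R) (ht : 0 < lev t) :
    ‖tst σ (.inl t) - σ (.inl t) (.inl (par t)) * tst σ (.inl (par t))‖ ^ 2 =
      (√(b : ℝ) - 1) ^ 2 * ((b : ℝ) ^ lev t)⁻¹ := by
  have h1 : tst σ (.inl t) - σ (.inl t) (.inl (par t)) * tst σ (.inl (par t)) =
      gau σ t.1 * (((((√(b : ℝ)) ^ lev t)⁻¹ - ((√(b : ℝ)) ^ lev (par t))⁻¹ : ℝ)) : ℂ) := by
    rw [tst, tst, ← mul_assoc, ← gau_par σ t ht]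
    push_cast
    ring
  have h2 : ((√(b : ℝ)) ^ lev t)⁻¹ - ((√(b : ℝ)) ^ lev (par t))⁻¹ =
      (1 - √(b : ℝ)) * ((√(b : ℝ)) ^ lev t)⁻¹ := by
    have h3 : √(b : ℝ) ≠ 0 := (Real.sqrt_pos.2 (Nat.cast_pos.2 hb)).ne'
    rw [← lev_par t ht, pow_succ]
    field_simp
  rw [h1, h2, norm_mul, gau_norm σ hσ, one_mul, Complex.norm_real, Real.norm_eq_abs, sq_abs,
    mul_pow, sq_inv]
  ring

open Classical in
/-- the energy is at most the sum over the oriented edges -/
lemma Q_le {b R : ℕ} (σ : T b R ⊕ Fin (b + 2) → T b R ⊕ Fin (b + 2) → ℂ)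
    (hσ : IsPotential (gr b R) σ) (f : T b R ⊕ Fin (b + 2) → ℂ) :
    Q (gr b R) σ f ≤ ∑ x, ∑ y, if rel b R x y then ‖f x - σ x y * f y‖ ^ 2 else 0 := by
  have hsym : ∀ x y, rel b R y x → ‖f x - σ x y * f y‖ ^ 2 = ‖f y - σ y x * f x‖ ^ 2 := by
    intro x y h
    obtain ⟨h1, h2⟩ := hσ x y (Or.inr h)
    have h0 : σ x y ≠ 0 := by
      intro h0
      rw [h0, norm_zero] at h1
      exact zero_ne_one h1
    have h3 : f x - σ x y * f y = -(σ x y) * (f y - σ y x * f x) := by
      rw [h2]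
      field_simp
      ring
    rw [h3, norm_mul, norm_neg, h1, one_mul]
  have h1 : ∑ x, ∑ y, (if (gr b R).Adj x y then ‖f x - σ x y * f y‖ ^ 2 else 0) ≤
      ∑ x, ∑ y, ((if rel b R x y then ‖f x - σ x y * f y‖ ^ 2 else 0) +
        (if rel b R y x then ‖f y - σ y x * f x‖ ^ 2 else 0)) := by
    refine Finset.sum_le_sum fun x _ => Finset.sum_le_sum fun y _ => ?_
    by_cases hx : rel b R x y
    · rw [if_pos (show (gr b R).Adj x y from Or.inl hx), if_pos hx]
      split_ifs
      · have := sq_nonneg ‖f y - σ y x * f x‖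
        linarith
      · linarith
    · by_cases hy : rel b R y x
      · rw [if_pos (show (gr b R).Adj x y from Or.inr hy), if_neg hx, if_pos hy, hsym x y hy,
          zero_add]
      · rw [if_neg (show ¬ (gr b R).Adj x y from fun h => h.elim hx hy), if_neg hx, if_neg hy,
          zero_add]
  have h2 : ∑ x, ∑ y, (if rel b R y x then ‖f y - σ y x * f x‖ ^ 2 else 0) =
      ∑ x, ∑ y, (if rel b R x y then ‖f x - σ x y * f y‖ ^ 2 else 0) := Finset.sum_comm
  have h3 : ∑ x, ∑ y, ((if rel b R x y then ‖f x - σ x y * f y‖ ^ 2 else 0) +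
        (if rel b R y x then ‖f y - σ y x * f x‖ ^ 2 else 0)) =
      2 * ∑ x, ∑ y, (if rel b R x y then ‖f x - σ x y * f y‖ ^ 2 else 0) := by
    rw [Finset.sum_congr rfl fun x _ => Finset.sum_add_distrib, Finset.sum_add_distrib, h2]
    ring
  unfold Q
  rw [h3] at h1
  linarith

open Classical in
/-- the energy of the test function -/
lemma Q_tst {b R : ℕ} (hb : 0 < b) (σ : T b R ⊕ Fin (b + 2) → T b R ⊕ Fin (b + 2) → ℂ)
    (hσ : IsPotential (gr b R) σ) :
    Q (gr b R) σ (tst σ) ≤ R * (√(b : ℝ) - 1) ^ 2 + 2 * (b + 2) := by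
  refine (Q_le σ hσ _).trans ?_
  have hz : ∀ i : Fin (b + 2), tst σ (.inr i) = 0 := fun i => rfl
  have h1 : ∑ x, ∑ y, (if rel b R x y then ‖tst σ x - σ x y * tst σ y‖ ^ 2 else 0) =
      ∑ t : T b R, ((if 0 < lev t then (√(b : ℝ) - 1) ^ 2 * ((b : ℝ) ^ lev t)⁻¹ else 0) +
        (b + 2) * (if lev t = 0 ∨ lev t = R then ((b : ℝ) ^ lev t)⁻¹ else 0)) := by
    rw [Fintype.sum_sum_type]
    have h2 : ∑ i : Fin (b + 2), ∑ y, (if rel b R (.inr i) y then
        ‖tst σ (.inr i) - σ (.inr i) y * tst σ y‖ ^ 2 else 0) = 0 := by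
      refine Finset.sum_eq_zero fun i _ => ?_
      rw [Fintype.sum_sum_type]
      have h3 : ∀ t : T b R, ¬ rel b R (.inr i) (.inl t) := fun t h => h
      simp only [h3, if_false, Finset.sum_const_zero, zero_add, hz]
      simp
    rw [h2, add_zero]
    refine Finset.sum_congr rfl fun t _ => ?_
    rw [Fintype.sum_sum_type]
    congr 1
    · rw [Finset.sum_eq_single (par t)]
      · by_cases ht : 0 < lev t
        · rw [if_pos (show rel b R (.inl t) (.inl (par t)) from ⟨ht, rfl⟩), if_pos ht,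
            edge hb σ hσ t ht]
        · rw [if_neg (show ¬ rel b R (.inl t) (.inl (par t)) from fun h => ht h.1), if_neg ht]
      · intro s _ hs
        exact if_neg (fun h => hs h.2)
      · intro h
        exact absurd (Finset.mem_univ _) h
    · have h4 : ∀ i : Fin (b + 2), (if rel b R (.inl t) (.inr i) then
          ‖tst σ (.inl t) - σ (.inl t) (.inr i) * tst σ (.inr i)‖ ^ 2 else 0) =
          (if lev t = 0 ∨ lev t = R then ((b : ℝ) ^ lev t)⁻¹ else 0) := by
        intro i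
        rw [hz, mul_zero, sub_zero, tst_sq σ hσ]
        by_cases h : lev t = 0 ∨ lev t = R
        · rw [if_pos h, if_pos (show rel b R (.inl t) (.inr i) from h)]
        · rw [if_neg h, if_neg (show ¬ rel b R (.inl t) (.inr i) from h)]
      rw [Finset.sum_congr rfl fun i _ => h4 i, Finset.sum_const, Finset.card_univ,
        Fintype.card_fin, nsmul_eq_mul]
      push_cast
      ring
  rw [h1, sum_lev b R (fun k => (if 0 < k then (√(b : ℝ) - 1) ^ 2 * ((b : ℝ) ^ k)⁻¹ else 0) +
    (b + 2) * (if k = 0 ∨ k = R then ((b : ℝ) ^ k)⁻¹ else 0))]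
  have h5 : ∀ k : ℕ, (b : ℝ) ^ k * ((if 0 < k then (√(b : ℝ) - 1) ^ 2 * ((b : ℝ) ^ k)⁻¹ else 0) +
      (b + 2) * (if k = 0 ∨ k = R then ((b : ℝ) ^ k)⁻¹ else 0)) ≤
      (if k ≠ 0 then (√(b : ℝ) - 1) ^ 2 else 0) +
        ((b + 2) * (if k = 0 then 1 else 0) + (b + 2) * (if k = R then 1 else 0)) := by
    intro k
    have h6 : (b : ℝ) ^ k * ((b : ℝ) ^ k)⁻¹ = 1 :=
      mul_inv_cancel₀ (pow_ne_zero _ (Nat.cast_ne_zero.2 hb.ne'))
    have h7 : (b : ℝ) ^ k * (if 0 < k then (√(b : ℝ) - 1) ^ 2 * ((b : ℝ) ^ k)⁻¹ else 0) =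
        (if k ≠ 0 then (√(b : ℝ) - 1) ^ 2 else 0) := by
      by_cases hk : 0 < k
      · rw [if_pos hk, if_pos hk.ne']
        linear_combination (√(b : ℝ) - 1) ^ 2 * h6
      · rw [if_neg hk, if_neg (by simpa using hk), mul_zero]
    have h8 : (b : ℝ) ^ k * (if k = 0 ∨ k = R then ((b : ℝ) ^ k)⁻¹ else 0) ≤
        (if k = 0 then 1 else 0) + (if k = R then 1 else 0) := by
      by_cases h9 : k = 0
      · rw [if_pos (Or.inl h9), if_pos h9, h6]
        split_ifs <;> norm_num
      · by_cases h10 : k = R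
        · rw [if_pos (Or.inr h10), if_neg h9, if_pos h10, h6, zero_add]
        · rw [if_neg (fun h => h.elim h9 h10), if_neg h9, if_neg h10, mul_zero, add_zero]
    have h9 : (0 : ℝ) ≤ (b : ℝ) + 2 := by positivity
    have h10 := mul_le_mul_of_nonneg_left h8 h9
    rw [mul_add, h7]
    linarith [h10]
  refine (Finset.sum_le_sum fun k _ => h5 k).trans ?_
  rw [Finset.sum_add_distrib, Finset.sum_add_distrib, ← Finset.mul_sum, ← Finset.mul_sum,
    Finset.sum_ite_eq' (range (R + 1)) 0, Finset.sum_ite_eq' (range (R + 1)) R,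
    if_pos (mem_range.2 (Nat.succ_pos R)), if_pos (mem_range.2 (Nat.lt_succ_self R)),
    Finset.sum_range_succ']
  simp only [ne_eq, Nat.add_eq_zero_iff, one_ne_zero, and_false, not_false_eq_true, if_true,
    not_true_eq_false, if_false, add_zero, Finset.sum_const, Finset.card_range, nsmul_eq_mul]
  linarith

lemma nu_gr (b R : ℕ) (hb : 0 < b) (σ : T b R ⊕ Fin (b + 2) → T b R ⊕ Fin (b + 2) → ℂ)
    (hσ : IsPotential (gr b R) σ) :
    ∃ f : T b R ⊕ Fin (b + 2) → ℂ, f ≠ 0 ∧
      Q (gr b R) σ f ≤ (R * (√(b : ℝ) - 1) ^ 2 + 2 * (b + 2)) / (R + 1) * ∑ x, ‖f x‖ ^ 2 := by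
  refine ⟨tst σ, ?_, ?_⟩
  · intro h
    have h1 := sum_sq hb σ hσ
    rw [h] at h1
    simp only [Pi.zero_apply, norm_zero, ne_eq, OfNat.ofNat_ne_zero, not_false_eq_true, zero_pow,
      Finset.sum_const_zero] at h1
    have h2 : (0 : ℝ) ≤ R := Nat.cast_nonneg R
    linarith
  · rw [sum_sq hb σ hσ, div_mul_cancel₀]
    · exact Q_tst hb σ hσ
    · have h2 : (0 : ℝ) ≤ R := Nat.cast_nonneg R
      linarith

end Pool.Agent.KS6_9.MG.Tree
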